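import Pool.Agent.MP_d61c0a_an.H5.Ball

open Metric

namespace Pool.Agent.Results.MP_d61c0a_an.OnePoint

/-- The function on the closed unit ball agrees with a function that is holomorphic in the open
unit ball. -/
def Holomorphic {E : Type} [NormedAddCommGroup E] [NormedSpace ℂ E] (f : closedBall (0 : E) 1 → ℂ) :
    Prop :=
  ∃ g : E → ℂ, DifferentiableOn ℂ g (ball 0 1) ∧ ∀ x, f x = g x

/-- The ball algebra: the continuous functions on the closed unit ball that are holomorphic in the
open unit ball. -/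
def ballAlgebra (E : Type) [NormedAddCommGroup E] [NormedSpace ℂ E] :
    Subalgebra ℂ C(closedBall (0 : E) 1, ℂ) where
  carrier := {f | Holomorphic f}
  mul_mem' := fun ⟨g, hg, h⟩ ⟨g', hg', h'⟩ => ⟨g * g', hg.mul hg', fun x => by simp [h, h']⟩
  add_mem' := fun ⟨g, hg, h⟩ ⟨g', hg', h'⟩ => ⟨g + g', hg.add hg', fun x => by simp [h, h']⟩
  algebraMap_mem' := fun c => ⟨fun _ => c, differentiableOn_const c, fun _ => rfl⟩

/-- The ideal `J` is the closure of an ideal with finitely many generators. -/
def IsClosureOfFG {A : Type} [Semiring A] [TopologicalSpace A] (J : Ideal A) : Prop :=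
  ∃ (k : ℕ) (f : Fin k → A), closure {h | ∃ g : Fin k → A, h = ∑ i, g i * f i} = (J : Set A)

/-- The function algebra `A` has a closed ideal with zero set `{ζ}` that is not the closure of an
ideal with finitely many generators. -/
def HasExoticIdeal {X : Type} [TopologicalSpace X] (A : Subalgebra ℂ C(X, ℂ)) (ζ : X) : Prop :=
  ∃ J : Ideal A, IsClosed (J : Set A) ∧ {w | ∀ f ∈ J, f.1 w = 0} = {ζ} ∧ ¬ IsClosureOfFG J

/-- For `n ≥ 2` the ball algebra has a closed ideal whose zero set is one point of the sphere and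
which is not the norm closure of an ideal with finitely many generators. -/
theorem result (n : ℕ) (hn : 2 ≤ n) :
    ∃ ζ, ‖ζ.1‖ = 1 ∧ HasExoticIdeal (ballAlgebra (EuclideanSpace ℂ (Fin n))) ζ := by
  obtain ⟨ζ, h1, J, h2, h3, h4⟩ :=
    Pool.Agent.MP_d61c0a_an.H5.ball_main n hn (ballAlgebra _) fun _ => Iff.rfl
  refine ⟨ζ, h1, J, h2, Set.ext h3, fun ⟨k, f, hf⟩ => ?_⟩
  refine h4 (Ideal.span (Set.range f)) (Submodule.fg_span (Set.finite_range f)) (Eq.trans ?_ hf)
  refine congrArg closure (Set.ext fun h => ?_)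
  simp only [SetLike.mem_coe, Ideal.mem_span_range_iff_exists_fun, Set.mem_setOf_eq, eq_comm]

end Pool.Agent.Results.MP_d61c0a_an.OnePoint
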